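import Mathlib

set_option autoImplicit false

namespace Pool.Agent.Results.MP_1ea425_al.Square

abbrev E : Type := Module.End ℤ (ℕ → ℤ)

/-- read off the even coordinates -/
def y0 : E := LinearMap.funLeft ℤ ℤ (fun n : ℕ => 2 * n)
/-- read off the odd coordinates -/
def y1 : E := LinearMap.funLeft ℤ ℤ (fun n : ℕ => 2 * n + 1)
/-- put a sequence on the even coordinates -/
def x0 : E where
  toFun f := fun n => if n % 2 = 0 then f (n / 2) else 0
  map_add' f g := by ext n; by_cases h : n % 2 = 0 <;> simp [h]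
  map_smul' c f := by ext n; by_cases h : n % 2 = 0 <;> simp [h]
/-- put a sequence on the odd coordinates -/
def x1 : E where
  toFun f := fun n => if n % 2 = 1 then f (n / 2) else 0
  map_add' f g := by ext n; by_cases h : n % 2 = 1 <;> simp [h]
  map_smul' c f := by ext n; by_cases h : n % 2 = 1 <;> simp [h]

theorem y0x0 : y0 * x0 = 1 := by
  refine LinearMap.ext fun f => funext fun n => ?_
  simp [y0, x0, LinearMap.funLeft]
theorem y1x1 : y1 * x1 = 1 := by
  refine LinearMap.ext fun f => funext fun n => ?_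
  have h1 : (2 * n + 1) % 2 = 1 := by omega
  have h2 : (2 * n + 1) / 2 = n := by omega
  simp [y1, x1, LinearMap.funLeft, h1, h2]
theorem y0x1 : y0 * x1 = 0 := by
  refine LinearMap.ext fun f => funext fun n => ?_
  simp [y0, x1, LinearMap.funLeft]
theorem y1x0 : y1 * x0 = 0 := by
  refine LinearMap.ext fun f => funext fun n => ?_
  have h1 : (2 * n + 1) % 2 = 1 := by omega
  simp [y1, x0, LinearMap.funLeft, h1]

instance : Nontrivial E := ⟨⟨0, 1, fun h => by
  have := congrArg (fun g : E => g (fun _ => 1) 0) h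
  simp at this⟩⟩

def a0 (T : E) : E := x0 * y0 + x0 * T * y1
def a1 (T : E) : E := x1 * T * y0

inductive C : E → Prop
  | zero : C 0
  | s0 (T : E) : C T → C (a0 T)
  | s1 (T : E) : C T → C (a1 T)

abbrev X : Type := {T : E // C T}

def b0 (T : X) : X := ⟨a0 T.1, C.s0 _ T.2⟩
def b1 (T : X) : X := ⟨a1 T.1, C.s1 _ T.2⟩

theorem cover (T : X) : (∃ U, T = b0 U) ∨ ∃ U, T = b1 U := by
  obtain ⟨T, hT⟩ := T
  cases hT with
  | zero => exact Or.inr ⟨⟨0, C.zero⟩, Subtype.ext (by simp [b1, a1])⟩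
  | s0 T h => exact Or.inl ⟨⟨T, h⟩, rfl⟩
  | s1 T h => exact Or.inr ⟨⟨T, h⟩, rfl⟩

abbrev F : Type := X → E

def p0 : F →+* F := RingHom.pi fun T => Pi.evalRingHom (fun _ : X => E) (b0 T)
def p1 : F →+* F := RingHom.pi fun T => Pi.evalRingHom (fun _ : X => E) (b1 T)

def c (e : E) : F := fun _ => e
def t : F := fun T => T.1

def gens : Set F := {c x0, c x1, c y0, c y1, t}

def R : Subring F := Subring.closure gens

theorem m_x0 : c x0 ∈ R := Subring.subset_closure (by simp [gens])
theorem m_x1 : c x1 ∈ R := Subring.subset_closure (by simp [gens])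
theorem m_y0 : c y0 ∈ R := Subring.subset_closure (by simp [gens])
theorem m_y1 : c y1 ∈ R := Subring.subset_closure (by simp [gens])
theorem m_t : t ∈ R := Subring.subset_closure (by simp [gens])

theorem p0c (e : E) : p0 (c e) = c e := rfl
theorem p1c (e : E) : p1 (c e) = c e := rfl
theorem p0t : p0 t = c x0 * c y0 + c x0 * t * c y1 := rfl
theorem p1t : p1 t = c x1 * t * c y0 := rfl
theorem cmul (a b : E) : c a * c b = c (a * b) := rfl
theorem c1 : c 1 = 1 := rfl
theorem c0 : c 0 = 0 := rfl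

theorem p0R (f : F) (hf : f ∈ R) : p0 f ∈ R := by
  have : R ≤ R.comap p0 := by
    refine Subring.closure_le.2 ?_
    intro g hg
    simp only [gens, Set.mem_insert_iff, Set.mem_singleton_iff] at hg
    rcases hg with rfl | rfl | rfl | rfl | rfl
    · exact m_x0
    · exact m_x1
    · exact m_y0
    · exact m_y1
    · show p0 t ∈ R
      rw [p0t]
      exact R.add_mem (R.mul_mem m_x0 m_y0) (R.mul_mem (R.mul_mem m_x0 m_t) m_y1)
  exact this hf

theorem p1R (f : F) (hf : f ∈ R) : p1 f ∈ R := by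
  have : R ≤ R.comap p1 := by
    refine Subring.closure_le.2 ?_
    intro g hg
    simp only [gens, Set.mem_insert_iff, Set.mem_singleton_iff] at hg
    rcases hg with rfl | rfl | rfl | rfl | rfl
    · exact m_x0
    · exact m_x1
    · exact m_y0
    · exact m_y1
    · show p1 t ∈ R
      rw [p1t]
      exact R.mul_mem (R.mul_mem m_x1 m_t) m_y0
  exact this hf

def q0 : R →+* R := (p0.comp R.subtype).codRestrict R fun f => p0R f.1 f.2
def q1 : R →+* R := (p1.comp R.subtype).codRestrict R fun f => p1R f.1 f.2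

def phi : R →+* R × R := q0.prod q1

theorem phi_inj : Function.Injective phi := by
  rw [injective_iff_map_eq_zero]
  intro f hf
  have h0 : p0 f.1 = 0 := congrArg (fun z : R × R => z.1.1) hf
  have h1 : p1 f.1 = 0 := congrArg (fun z : R × R => z.2.1) hf
  refine Subtype.ext (funext fun T => ?_)
  rcases cover T with ⟨U, rfl⟩ | ⟨U, rfl⟩
  · exact congrFun h0 U
  · exact congrFun h1 U

theorem hy0x0 : c y0 * c x0 = 1 := by rw [cmul, y0x0, c1]
theorem hy1x1 : c y1 * c x1 = 1 := by rw [cmul, y1x1, c1]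
theorem hy0x1 : c y0 * c x1 = 0 := by rw [cmul, y0x1, c0]
theorem hy1x0 : c y1 * c x0 = 0 := by rw [cmul, y1x0, c0]

theorem e00 : p0 (c y0 * t * c x0) = 1 ∧ p1 (c y0 * t * c x0) = 0 := by
  constructor
  · rw [map_mul, map_mul, p0c, p0c, p0t]
    calc c y0 * (c x0 * c y0 + c x0 * t * c y1) * c x0
        = (c y0 * c x0) * (c y0 * c x0) + (c y0 * c x0) * t * (c y1 * c x0) := by noncomm_ring
      _ = 1 := by rw [hy0x0, hy1x0]; simp
  · rw [map_mul, map_mul, p1c, p1c, p1t]
    calc c y0 * (c x1 * t * c y0) * c x0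
        = (c y0 * c x1) * t * (c y0 * c x0) := by noncomm_ring
      _ = 0 := by rw [hy0x1]; simp

theorem e01 : p0 (c y0 * t * c x1) = t := by
  rw [map_mul, map_mul, p0c, p0c, p0t]
  calc c y0 * (c x0 * c y0 + c x0 * t * c y1) * c x1
      = (c y0 * c x0) * (c y0 * c x1) + (c y0 * c x0) * t * (c y1 * c x1) := by noncomm_ring
    _ = t := by rw [hy0x0, hy0x1, hy1x1]; simp

theorem e10 : p1 (c y1 * t * c x0) = t := by
  rw [map_mul, map_mul, p1c, p1c, p1t]
  calc c y1 * (c x1 * t * c y0) * c x0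
      = (c y1 * c x1) * t * (c y0 * c x0) := by noncomm_ring
    _ = t := by rw [hy1x1, hy0x0]; simp

theorem p0_onto (f : F) (hf : f ∈ R) : ∃ g ∈ R, p0 g = f := by
  have : R ≤ R.map p0 := by
    refine Subring.closure_le.2 ?_
    intro g hg
    simp only [gens, Set.mem_insert_iff, Set.mem_singleton_iff] at hg
    rcases hg with rfl | rfl | rfl | rfl | rfl
    · exact ⟨_, m_x0, rfl⟩
    · exact ⟨_, m_x1, rfl⟩
    · exact ⟨_, m_y0, rfl⟩
    · exact ⟨_, m_y1, rfl⟩
    · exact ⟨_, R.mul_mem (R.mul_mem m_y0 m_t) m_x1, e01⟩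
  exact this hf

theorem p1_onto (f : F) (hf : f ∈ R) : ∃ g ∈ R, p1 g = f := by
  have : R ≤ R.map p1 := by
    refine Subring.closure_le.2 ?_
    intro g hg
    simp only [gens, Set.mem_insert_iff, Set.mem_singleton_iff] at hg
    rcases hg with rfl | rfl | rfl | rfl | rfl
    · exact ⟨_, m_x0, rfl⟩
    · exact ⟨_, m_x1, rfl⟩
    · exact ⟨_, m_y0, rfl⟩
    · exact ⟨_, m_y1, rfl⟩
    · exact ⟨_, R.mul_mem (R.mul_mem m_y1 m_t) m_x0, e10⟩
  exact this hf

theorem phi_surj : Function.Surjective phi := by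
  rintro ⟨u, v⟩
  obtain ⟨g, hg, hgu⟩ := p0_onto u.1 u.2
  obtain ⟨h, hh, hhv⟩ := p1_onto v.1 v.2
  have he : c y0 * t * c x0 ∈ R := R.mul_mem (R.mul_mem m_y0 m_t) m_x0
  refine ⟨⟨(c y0 * t * c x0) * g + (1 - c y0 * t * c x0) * h,
    R.add_mem (R.mul_mem he hg) (R.mul_mem (R.sub_mem R.one_mem he) hh)⟩, ?_⟩
  refine Prod.ext (Subtype.ext ?_) (Subtype.ext ?_)
  · show p0 ((c y0 * t * c x0) * g + (1 - c y0 * t * c x0) * h) = u.1
    rw [map_add, map_mul p0 _ g, map_mul p0 _ h, map_sub, map_one, e00.1, hgu]; simp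
  · show p1 ((c y0 * t * c x0) * g + (1 - c y0 * t * c x0) * h) = v.1
    rw [map_add, map_mul p1 _ g, map_mul p1 _ h, map_sub, map_one, e00.2, hhv]; simp

instance : Nonempty X := ⟨⟨0, C.zero⟩⟩

/-- There is a non-zero finitely generated associative unital ring isomorphic to its square. -/
theorem result : ∃ (R : Type) (_ : Ring R), Nontrivial R ∧
    (∃ S : Finset R, Subring.closure (S : Set R) = ⊤) ∧ Nonempty (R ≃+* R × R) := by
  classical
  refine ⟨R, inferInstance, inferInstance, ?_, ⟨RingEquiv.ofBijective phi ⟨phi_inj, phi_surj⟩⟩⟩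
  refine ⟨{⟨_, m_x0⟩, ⟨_, m_x1⟩, ⟨_, m_y0⟩, ⟨_, m_y1⟩, ⟨_, m_t⟩}, ?_⟩
  rw [eq_top_iff]
  rintro ⟨f, hf⟩ -
  induction hf using Subring.closure_induction with
  | mem g hg =>
    apply Subring.subset_closure
    simp only [gens, Set.mem_insert_iff, Set.mem_singleton_iff] at hg
    rcases hg with rfl | rfl | rfl | rfl | rfl <;> simp
  | zero => exact Subring.zero_mem _
  | one => exact Subring.one_mem _
  | add a b ha hb iha ihb => exact Subring.add_mem _ iha ihb
  | neg a ha iha => exact Subring.neg_mem _ iha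
  | mul a b ha hb iha ihb => exact Subring.mul_mem _ iha ihb

end Pool.Agent.Results.MP_1ea425_al.Square
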